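import Pool.Agent.Helper32K9.Reg.Quad4

set_option autoImplicit false

/-!
# Patterns of regular elements in the sets of prime quadruples of both shapes

Let `s` be `(0, 2, 6, 8)` or `(0, 4, 6, 10)`. `R s r` is the set of the `n` for which all prime factors of all
`n + s i` are larger than `n ^ (1 / r)`; it contains the set of the `n` for which all `n + s i` are prime. Let
`A` be an ARBITRARY subset of `R s r`, for example the set of all prime quadruples of the shape `s`. In every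
interval `(X, X + Y]`, `X ^ θ ≤ Y ≤ X / 2`, all but at most `ε Y / log ^ 4 X` of the elements of `A` are typical:
they are regular points of `A` and they are the centres of at least
`c D ^ m / (log X) ^ (4 ((2 K + 1) ^ m - 1))` patterns `n + f · d` (`|f i| ≤ K`) with difference vectors `d` in
`{1, ..., D} ^ m` ALL OF WHOSE ELEMENTS are regular points of `A` in `(X, X + Y]`.

The starting file RegularQuadruples of this problem has the regular points; new are the patterns, all elements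
of which are regular.
-/

namespace Pool.Agent.Results.MP_092512_nt.RegularPatterns

open Filter
open Pool.Agent.Helper32K9.Typ (Typical)
open Pool.Agent.Helper32K9.Tup (R Al)

/-- **Patterns of regular elements.** -/
theorem result (s : Fin 4 → ℕ) (hs : s = ![0, 2, 6, 8] ∨ s = ![0, 4, 6, 10]) (θ : ℝ) (hθ : 0 < θ) (hθ1 : θ ≤ 1) :
    ∃ r₀ : ℕ, 2 ≤ r₀ ∧ ∀ r : ℕ, r₀ ≤ r →
      {n : ℕ | ∀ i, (n + s i).Prime} ⊆ R s r ∧ Al s r ⊆ R s r ∧
      (∃ κ : ℝ, 0 < κ ∧ ∀ᶠ X : ℕ in atTop, ∀ Y : ℕ, (X : ℝ) ^ θ ≤ Y → Y ≤ X →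
        κ * Y / Real.log X ^ 4 ≤ ((Al s r ∩ Set.Ioc X (X + Y)).ncard : ℝ)) ∧
      ∀ m K : ℕ, 1 ≤ K → ∀ ε : ℝ, 0 < ε → ∃ c : ℝ, 0 < c ∧ ∀ δ : ℝ, 0 < δ → ∃ B : ℕ,
        ∀ᶠ X : ℕ in atTop, ∀ Y D : ℕ, (X : ℝ) ^ θ ≤ Y → 2 * Y ≤ X → Real.log X ^ B ≤ D → D ≤ Y →
          ∀ A : Set ℕ, A ⊆ R s r →
          (((A ∩ Set.Ioc X (X + Y)) \ Typical A 4 c δ B K m X Y D).ncard : ℝ) ≤
            ε * Y / Real.log X ^ 4 := by
  obtain ⟨r₀, hr₀, h⟩ := Pool.Agent.Helper32K9.Tup.main (by norm_num : 1 ≤ 4) s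
    (Pool.Agent.Helper32K9.Tup.shapes_inj s hs) (Pool.Agent.Helper32K9.Tup.shapes_adm s hs) θ hθ hθ1
  refine ⟨r₀, hr₀, fun r hr => ?_⟩
  obtain ⟨h1, h2, -⟩ := h r hr
  refine ⟨fun n hn => ?_, fun n hn => hn.1, h1, fun m K hK ε hε => ?_⟩
  · have h0 : (n + s 0).Prime := hn 0
    rw [Pool.Agent.Helper32K9.Tup.shapes_zero s hs, add_zero] at h0
    exact Pool.Agent.Helper32K9.Tup.prime_mem s (hr₀.trans hr) h0.two_le hn
  · obtain ⟨c, hc, h4⟩ := h2 m K hK ε hε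
    refine ⟨c, hc, fun δ hδ => ?_⟩
    obtain ⟨B, h5⟩ := h4 δ hδ
    refine ⟨B, ?_⟩
    filter_upwards [h5] with X hX Y D k1 k2 k3 k4 A hA
    exact hX Y D k1 k2 k3 k4 A (fun n hn q hq hd => hA hn q hq hd)

end Pool.Agent.Results.MP_092512_nt.RegularPatterns
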