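import Pool.Agent.Helper34K9.PQ.Fin2

/-!
# Prime quadruples `p, p + d, p + e, p + d + e` with `d`, `e` in difference sets of arbitrary sparse sets

Both shapes of the problem are of the form `p, p + d, p + e, p + d + e`: `(d, e) = (2, 6)` gives `p, p + 2, p + 6, p + 8`
and `(d, e) = (4, 6)` gives `p, p + 4, p + 6, p + 10`. The Hardy-Littlewood conjecture for this pattern says that the
number of the `p ≤ X` is asymptotic to `S(d, e) X / (log X) ^ 4`, where `S(d, e)` is the product over all primes `p` of
`(1 - ν(p) / p) / (1 - 1 / p) ^ 4`, with `ν(p)` the number of the residue classes occupied by `0, d, e, d + e` (for the two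
shapes `S` is the constant `E` and `2 E` of the problem).

We prove the lower bound with the exact constant on average over all pairs of differences `d = |a - a'|`, `e = |b - b'|`
of two ARBITRARY sets `A`, `B` of integers in `[0, δ X]` with at least `K (log X) ^ 2` and `K log X loglog X` elements, and
deduce that a positive proportion (measured with the weights `S`) of these pairs `(d, e)` have at least
`(1 - ε) S(d, e) X / (log X) ^ 4` such quadruples. Nothing is assumed on the structure of `A` and `B`.

The proof compares the primes with the model of the integers without prime factors `≤ log X` by means of the inequality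
of Cauchy, Schwarz and Gowers for parallelograms, applied without the degenerate terms `b = b'`. The product `singular y`
is taken over the primes `p ≤ y`; the theorem holds for all `y ≥ log X`, and `y → ∞` gives the full constant `S(d, e)`.

From the starting files: the theorem of Siegel and Walfisz (`Pool.Agent.H343R2.EH`, `Pool.Agent.H442R2.EHI`), the
fundamental lemma of the sieve (`Pool.Agent.TH423.SH`, `Pool.Agent.H20R2`, `Pool.Agent.H373R2.T7`) and Mertens' theorem
(`Pool.Agent.Erdos456`). From Mathlib: `Nat.dist a b = |a - b|`.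
-/

set_option autoImplicit false

namespace Pool.Agent.Results.MP_092512_nt.SparseFamilies

open Finset

/-- The primes up to `y`. -/
def primes (y : ℕ) : Finset ℕ := (Icc 1 y).filter Nat.Prime

open Classical in
/-- The number of the primes `p ≤ X` for which `p + d`, `p + e` and `p + d + e` are primes too. -/
noncomputable def quadruples (X d e : ℕ) : ℝ :=
  (((Icc 1 X).filter (fun p => p.Prime ∧ (p + d).Prime ∧ (p + e).Prime ∧ (p + d + e).Prime)).card : ℝ)

open Classical in
/-- The number of the residues `n` modulo `p` for which `p` divides one of `n`, `n + d`, `n + e`, `n + d + e`. -/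
noncomputable def classes (d e p : ℕ) : ℕ :=
  ((range p).filter (fun n => p ∣ n ∨ p ∣ n + d ∨ p ∣ n + e ∨ p ∣ n + d + e)).card

/-- The product over the primes `p ≤ y` of `(1 - ν / p) / (1 - 1 / p) ^ 4`, where `ν = classes d e p`. -/
noncomputable def singular (y d e : ℕ) : ℝ := ∏ p ∈ primes y, (1 - (classes d e p : ℝ) / p) / (1 - 1 / (p : ℝ)) ^ 4

/-- The difference `|a - a'|` of a quadruple `(a, a', b, b')`. -/
def first (q : ℕ × ℕ × ℕ × ℕ) : ℕ := Nat.dist q.1 q.2.1

/-- The difference `|b - b'|` of a quadruple `(a, a', b, b')`. -/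
def second (q : ℕ × ℕ × ℕ × ℕ) : ℕ := Nat.dist q.2.2.1 q.2.2.2

/-- The quadruples `(a, a', b, b')` with `a ≠ a'` in `A`, `b ≠ b'` in `B` and `|a - a'| ≠ |b - b'|`. -/
def family (A B : Finset ℕ) : Finset (ℕ × ℕ × ℕ × ℕ) :=
  (A ×ˢ A ×ˢ B ×ˢ B).filter (fun q => q.1 ≠ q.2.1 ∧ q.2.2.1 ≠ q.2.2.2 ∧ first q ≠ second q)

lemma classes_eq (d e p : ℕ) : classes d e p = Pool.Agent.Helper34K9.PQ.nu (Pool.Agent.Helper34K9.PQ.pat d e) p := by
  classical
  unfold classes Pool.Agent.Helper34K9.PQ.nu
  congr 1
  apply filter_congr
  intro n _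
  constructor
  · rintro (h | h | h | h)
    · exact ⟨0, h⟩
    · exact ⟨1, h⟩
    · exact ⟨2, h⟩
    · exact ⟨3, by rw [add_assoc] at h; exact h⟩
  · rintro ⟨i, hi⟩
    fin_cases i
    · exact Or.inl hi
    · exact Or.inr (Or.inl hi)
    · exact Or.inr (Or.inr (Or.inl hi))
    · refine Or.inr (Or.inr (Or.inr ?_))
      rw [add_assoc]
      exact hi

lemma singular_eq (y d e : ℕ) : singular y d e = Pool.Agent.Helper34K9.PQ.SS y (Pool.Agent.Helper34K9.PQ.pat d e) := by
  unfold singular Pool.Agent.Helper34K9.PQ.SS Pool.Agent.Helper34K9.PQ.PV Pool.Agent.Helper34K9.PQ.V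
  rw [← prod_pow, ← prod_div_distrib]
  apply prod_congr rfl
  intro p _
  rw [classes_eq]

lemma quadruples_eq (X d e : ℕ) : quadruples X d e = Pool.Agent.Helper34K9.PQ.NQ X d e := by
  classical
  unfold quadruples Pool.Agent.Helper34K9.PQ.NQ
  congr 2
  apply filter_congr
  intro p _
  constructor
  · rintro ⟨h1, h2, h3, h4⟩ i
    fin_cases i
    · exact h1
    · exact h2
    · exact h3
    · rw [add_assoc] at h4
      exact h4
  · intro h
    refine ⟨h 0, h 1, h 2, ?_⟩
    rw [add_assoc]
    exact h 3

open Classical in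
/-- Let `0 < ε ≤ 1`. There are `δ, κ > 0` and `K` such that for all large `X` and ALL sets `A`, `B` of integers in
`[0, δ X]` with at least `K (log X) ^ 2` and at least `K log X loglog X` elements, and for all `y ≥ log X`:

* (average) the sum of the numbers of prime quadruples `p, p + d, p + e, p + d + e` with `p ≤ X` over all `d = |a - a'|`,
  `e = |b - b'|` is at least `(1 - ε) X / (log X) ^ 4` times the sum of the `singular y d e`;
* (size) the sum of the `singular y d e` is at least `κ |A| ^ 2 |B| ^ 2`;
* (proportion) a proportion of at least `κ` of the sum of the `singular y d e` comes from the pairs `(d, e)` with at least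
  `(1 - ε) (singular y d e) X / (log X) ^ 4` prime quadruples. -/
theorem result (ε : ℝ) (hε : 0 < ε) (hε1 : ε ≤ 1) : ∃ δ κ K : ℝ, 0 < δ ∧ 0 < κ ∧ ∃ X₀ : ℕ, ∀ X : ℕ, X₀ ≤ X →
    ∀ A B : Finset ℕ, (∀ a ∈ A, (a : ℝ) ≤ δ * X) → (∀ b ∈ B, (b : ℝ) ≤ δ * X) →
    K * Real.log X ^ 2 ≤ A.card → K * (Real.log X * Real.log (Real.log X)) ≤ B.card →
    ∀ y : ℕ, Real.log X ≤ y →
    (1 - ε) * (X / Real.log X ^ 4) * ∑ q ∈ family A B, singular y (first q) (second q) ≤
      ∑ q ∈ family A B, quadruples X (first q) (second q) ∧
    κ * ((A.card : ℝ) ^ 2 * (B.card : ℝ) ^ 2) ≤ ∑ q ∈ family A B, singular y (first q) (second q) ∧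
    κ * ∑ q ∈ family A B, singular y (first q) (second q) ≤
      ∑ q ∈ (family A B).filter (fun q => (1 - ε) * (X / Real.log X ^ 4) * singular y (first q) (second q) ≤
        quadruples X (first q) (second q)), singular y (first q) (second q) := by
  obtain ⟨δ, κ, K, hδ, hκ, X₀, h⟩ := Pool.Agent.Helper34K9.PQ.fin' ε hε hε1
  refine ⟨δ, κ, K, hδ, hκ, X₀, fun X hX A B hA hB hAc hBc y hy => ?_⟩
  have h1 := h X hX A B hA hB hAc hBc y hy
  simp only [singular_eq, quadruples_eq]
  exact h1

end Pool.Agent.Results.MP_092512_nt.SparseFamilies
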