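import Pool.Agent.Helper82K9.PW.PW10

/-!
# The Hardy-Littlewood asymptotic formulas for prime quadruples, along almost all polynomials congruent to `n`

The question asks for the asymptotic formulas, with the constants `E` and `2 E`, for the numbers of the `n` for which
`n, n + 2, n + 6, n + 8` are primes and for which `n, n + 4, n + 6, n + 10` are primes. We count the `n` for which the
values `P(n + h 1), ..., P(n + h k)` of ONE integer polynomial `P` are primes (up to the sign); for `k = 4`, `P(n) = n`
and `h = (0, 2, 6, 8)`, `h = (0, 4, 6, 10)` this is the question. We prove the asymptotic formula, with the singular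
series of `h 1, ..., h k` (which is `E` and `2 E` for the two shapes of the question) and a relative error, for almost all
integer polynomials `P` of degree at most `m`, `m ≥ 2 k - 1`, with coefficients at most `H`, which are congruent to the
polynomial `n` modulo every prime `p ≤ z = [(log log H) / 2]`. It is uniform over ALL distinct `h i ≤ x`, where the
length `x` is anything between a large constant times `(log H) ^ k` and an arbitrary power of `log H`. The same is proved
in every other residue class `P₀` of polynomials modulo the primes `p ≤ z`, with the product of the local densities of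
`P₀`.

From the starting files: the theorems of Siegel and Walfisz and the prime number theorem in the forms of
`Pool.Agent.H343R2.EH` and `Pool.Agent.H442R2.EHI`, and Mertens' theorem (`Pool.Agent.Erdos456`).
From Mathlib: `Fintype.piFinset fun i => S i`: the functions `a` with `a i ∈ S i` for all `i`; `⌊t⌋₊`: the integer part;
`∏' p : Nat.Primes, f p`: the infinite product over the primes.
-/

set_option autoImplicit false

namespace Pool.Agent.Results.MP_092512_nt.TuplesInClasses

open Finset

open Classical in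
/-- The polynomials of degree at most `m` with integer coefficients of absolute value at most `H`, given by their
coefficients, which are congruent to the polynomial `P₀` modulo every prime `p ≤ z`. -/
noncomputable def inClass {m : ℕ} (H z : ℕ) (P₀ : Fin (m + 1) → ℤ) : Finset (Fin (m + 1) → ℤ) :=
  (Fintype.piFinset (fun _ => Icc (-(H : ℤ)) H)).filter (fun P => ∀ p : ℕ, p.Prime → p ≤ z → ∀ j, (p : ℤ) ∣ P j - P₀ j)

/-- The polynomial `n`. -/
def identity (m : ℕ) : Fin (m + 1) → ℤ := fun j => if (j : ℕ) = 1 then 1 else 0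

/-- The value at `n` of the polynomial with the coefficients `P j`. -/
def value {m : ℕ} (P : Fin (m + 1) → ℤ) (n : ℕ) : ℤ := ∑ j, P j * (n : ℤ) ^ (j : ℕ)

open Classical in
/-- The number of the elements of `S` with the property `F`. -/
noncomputable def number {α : Type} (S : Finset α) (F : α → Prop) : ℝ := ((S.filter F).card : ℝ)

/-- The number of the `n ≤ y` for which all `|P(n + h i)|` are primes. -/
noncomputable def tuples {k m : ℕ} (h : Fin k → ℕ) (P : Fin (m + 1) → ℤ) (y : ℕ) : ℝ :=
  number (Icc 1 y) (fun n => ∀ i, (value P (n + h i)).natAbs.Prime)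

/-- The singular series of `h 1, ..., h k`. -/
noncomputable def series {k : ℕ} (h : Fin k → ℕ) : ℝ := ∏' p : Nat.Primes,
  (1 - ((univ.image (fun i => h i % (p : ℕ))).card : ℝ) / ((p : ℕ) : ℝ)) / (1 - 1 / ((p : ℕ) : ℝ)) ^ k

/-- The primes up to `z`. -/
def primes (z : ℕ) : Finset ℕ := (Icc 1 z).filter Nat.Prime

/-- The product over the primes `p ≤ z` of the factors `(1 - ν(p) / p) / (1 - 1 / p) ^ k`, where `ν(p)` is the number of
the `n` modulo `p` for which `p` divides one of the values `P(n + h i)`. -/
noncomputable def singular {k m : ℕ} (z : ℕ) (h : Fin k → ℕ) (P : Fin (m + 1) → ℤ) : ℝ :=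
  ∏ p ∈ primes z, (1 - number (range p) (fun n => ∃ i, (p : ℤ) ∣ value P (n + h i)) / p) / (1 - 1 / (p : ℝ)) ^ k

/-- Half of `log log H`, rounded down. -/
noncomputable def cutoff (H : ℕ) : ℕ := ⌊Real.log (Real.log H) / 2⌋₊

/-- The constant `E` of the question. -/
noncomputable def E : ℝ := 27 / 2 * ∏' q : Nat.Primes,
  if (q : ℕ) ≤ 3 then 1 else ((q : ℕ) : ℝ) ^ 3 * (((q : ℕ) : ℝ) - 4) / (((q : ℕ) : ℝ) - 1) ^ 4

lemma number_le {α : Type} (S : Finset α) (F G : α → Prop) [DecidablePred G] (h : ∀ a ∈ S, F a → G a) :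
    number S F ≤ ((S.filter G).card : ℝ) := by
  classical
  unfold number
  exact Nat.cast_le.2 (card_le_card fun a ha => mem_filter.2 ⟨(mem_filter.1 ha).1, h a (mem_filter.1 ha).1 (mem_filter.1 ha).2⟩)

lemma inClass_eq {m : ℕ} (H z : ℕ) (P₀ : Fin (m + 1) → ℤ) :
    Pool.Agent.Helper32K9.QB.Cl m H (primorial z) P₀ = inClass H z P₀ := by
  classical
  unfold Pool.Agent.Helper32K9.QB.Cl inClass Pool.Agent.Helper82K9.PR.Bx
  ext P
  rw [mem_filter, mem_filter]
  apply and_congr_right
  intro _
  constructor
  · intro h p hp hpz j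
    have h1 : (p : ℤ) ∣ ((primorial z : ℕ) : ℤ) := by exact_mod_cast hp.dvd_primorial_iff.2 hpz
    exact h1.trans (h j)
  · intro h j
    rw [Int.natCast_dvd]
    apply Finset.prod_primes_dvd
    · intro p hp
      exact (mem_filter.1 hp).2.prime
    · intro p hp
      rw [mem_filter, mem_range] at hp
      exact Int.natCast_dvd.1 (h p hp.2 (by omega) j)

lemma prime_eq {k m : ℕ} (H : ℕ) (h : Fin k → ℕ) (v : Fin (m + 1) → ℤ) (n : ℕ)
    [Decidable (∀ i, (value v (n + h i)).natAbs.Prime)] :
    Pool.Agent.Helper82K9.PR.FF (Real.log H) h (fun _ _ => 0) v n =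
      if (∀ i, (value v (n + h i)).natAbs.Prime) then Real.log H ^ k else 0 := by
  unfold Pool.Agent.Helper82K9.PR.FF Pool.Agent.Helper82K9.PR.om
  by_cases hall : ∀ i, (value v (n + h i)).natAbs.Prime
  · rw [if_pos hall]
    have : ∀ i ∈ (univ : Finset (Fin k)), (if (Pool.Agent.Helper82K9.PR.pv v (n + h i) + 0).natAbs.Prime then
        Real.log H else 0) = Real.log H := fun i _ => if_pos (by rw [add_zero]; exact hall i)
    rw [prod_congr rfl this, prod_const, card_univ, Fintype.card_fin]
  · rw [if_neg hall]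
    push Not at hall
    obtain ⟨i, hi⟩ := hall
    exact prod_eq_zero (mem_univ i) (if_neg (by rw [add_zero]; exact hi))

lemma sum_eq {k m : ℕ} (H : ℕ) (h : Fin k → ℕ) (y : ℕ) (v : Fin (m + 1) → ℤ) :
    ∑ n ∈ Icc 1 y, Pool.Agent.Helper82K9.PR.FF (Real.log H) h (fun _ _ => 0) v n =
      tuples h v y * Real.log H ^ k := by
  classical
  rw [sum_congr rfl (fun n _ => prime_eq H h v n), ← sum_filter, sum_const, nsmul_eq_mul]
  unfold tuples number
  congr 3
  ext n
  simp only [mem_filter]

lemma singular_eq {k m : ℕ} (z : ℕ) (h : Fin k → ℕ) (P : Fin (m + 1) → ℤ) :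
    Pool.Agent.Helper82K9.PR.SS z h P = singular z h P := by
  unfold Pool.Agent.Helper82K9.PR.SS singular primes
  apply prod_congr rfl
  intro p _
  have e : ((Pool.Agent.Helper82K9.PR.nu h P p : ℕ) : ℝ) = number (range p) (fun n => ∃ i, (p : ℤ) ∣ value P (n + h i)) := by
    unfold Pool.Agent.Helper82K9.PR.nu number
    congr 2
    ext n
    simp only [mem_filter]
    rfl
  rw [e]

lemma nu_eq {k : ℕ} (h : Fin k → ℕ) (p : ℕ) :
    Pool.Agent.Helper82K9.PW.nuQ (univ.image h) p = (univ.image (fun i => h i % p)).card := by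
  unfold Pool.Agent.Helper82K9.PW.nuQ
  rw [image_image]
  rfl

lemma series_eq {k : ℕ} (h : Fin k → ℕ) (hh : Function.Injective h) :
    Pool.Agent.Helper82K9.PW.SSQ (univ.image h) = series h := by
  unfold Pool.Agent.Helper82K9.PW.SSQ series
  congr 1
  ext p
  unfold Pool.Agent.Helper82K9.PW.fac
  rw [nu_eq, card_image_of_injective _ hh, card_univ, Fintype.card_fin]

lemma series_ne {k : ℕ} (h : Fin k → ℕ) (hs : series h ≠ 0) (p : ℕ) (hp : p.Prime) :
    Pool.Agent.Helper82K9.PW.nuQ (univ.image h) p < p := by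
  rw [nu_eq]
  have h1 : (univ.image (fun i => h i % p)).card ≤ p := by
    have h2 : univ.image (fun i => h i % p) ⊆ range p := by
      intro c hc
      rw [mem_image] at hc
      obtain ⟨i, _, rfl⟩ := hc
      exact mem_range.2 (Nat.mod_lt _ hp.pos)
    have := card_le_card h2
    rwa [card_range] at this
  refine lt_of_le_of_ne h1 fun h3 => hs ?_
  unfold series
  apply tprod_of_exists_eq_zero
  refine ⟨⟨p, hp⟩, ?_⟩
  have hp0 : (p : ℝ) ≠ 0 := by exact_mod_cast hp.ne_zero
  show (1 - ((univ.image (fun i => h i % p)).card : ℝ) / (p : ℝ)) / (1 - 1 / (p : ℝ)) ^ k = 0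
  rw [h3, div_self hp0, sub_self, zero_div]

lemma E_eq : Pool.Agent.Helper82K9.PW.EE = E := by
  unfold Pool.Agent.Helper82K9.PW.EE E Pool.Agent.Helper82K9.PW.gE
  rfl

/-- Let `k ≥ 1`, `m ≥ 2 k - 1`, `B` and `ε > 0` be given. There is `A` such that for all `H ≥ A`, all `x` with
`A (log H) ^ k ≤ x ≤ (log H) ^ B` and ALL distinct `h 1, ..., h k ≤ x` the following holds, with `z = cutoff H`.

* If the singular series of `h 1, ..., h k` is not `0`: for all but `ε (number)` of the integer polynomials `P` of degree
  at most `m` with coefficients at most `H` which are congruent to the polynomial `n` modulo every prime `p ≤ z`, the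
  number of the `n ≤ y` for which all `|P(n + h i)|` are primes, times `(log H) ^ k`, is `series h * y` up to
  `ε * series h * x`, for all `y ≤ x`.
* For every integer polynomial `P₀`: for all but `ε (number)` of the integer polynomials `P` of degree at most `m` with
  coefficients at most `H` which are congruent to `P₀` modulo every prime `p ≤ z`, this number, times `(log H) ^ k`, is
  `singular z h P₀ * y` up to `ε * (1 + singular z h P₀) * x`, for all `y ≤ x`.

For the two shapes `0, 2, 6, 8` and `0, 4, 6, 10` of the question the singular series is `E > 0` and `2 E`. -/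
theorem result : (∀ k : ℕ, 1 ≤ k → ∀ m : ℕ, 2 * k ≤ m + 1 → ∀ B : ℕ, ∀ ε : ℝ, 0 < ε → ∃ A : ℕ, ∀ H : ℕ, A ≤ H →
    ∀ x : ℕ, A * Real.log H ^ k ≤ x → (x : ℝ) ≤ Real.log H ^ B →
    ∀ h : Fin k → ℕ, Function.Injective h → (∀ i, h i ≤ x) →
    (series h ≠ 0 → number (inClass H (cutoff H) (identity m)) (fun P => ¬ ∀ y ≤ x,
      |tuples h P y * Real.log H ^ k - series h * y| ≤ ε * series h * x) ≤
      ε * (inClass H (cutoff H) (identity m)).card) ∧
    ∀ P₀ : Fin (m + 1) → ℤ, number (inClass H (cutoff H) P₀) (fun P => ¬ ∀ y ≤ x,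
      |tuples h P y * Real.log H ^ k - singular (cutoff H) h P₀ * y| ≤
        ε * (1 + singular (cutoff H) h P₀) * x) ≤ ε * (inClass H (cutoff H) P₀).card) ∧
    series ![0, 2, 6, 8] = E ∧ series ![0, 4, 6, 10] = 2 * E ∧ 0 < E := by
  classical
  refine ⟨fun k hk m hm B ε hε => ?_, ?_, ?_, ?_⟩
  · obtain ⟨A1, hA1, g1⟩ := Pool.Agent.Helper82K9.PW.classN k m hk hm B ε hε
    obtain ⟨A2, hA2, g2⟩ := Pool.Agent.Helper82K9.PW.classS k m hk hm B ε hε
    refine ⟨max A1 A2, fun H hH x hx hxB h hinj hsx => ?_⟩
    have hH3 : 3 ≤ H := hA1.trans ((le_max_left _ _).trans hH)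
    have hL0 : 0 ≤ Real.log H := Real.log_natCast_nonneg H
    have hxA1 : A1 * Real.log H ^ k ≤ x := by
      refine le_trans ?_ hx
      apply mul_le_mul_of_nonneg_right _ (by positivity)
      exact_mod_cast le_max_left _ _
    have hxA2 : A2 * Real.log H ^ k ≤ x := by
      refine le_trans ?_ hx
      apply mul_le_mul_of_nonneg_right _ (by positivity)
      exact_mod_cast le_max_right _ _
    have hz : Pool.Agent.Helper82K9.PR.zH H = cutoff H := rfl
    have hid : Pool.Agent.Helper82K9.PW.idP m = identity m := rfl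
    refine ⟨fun hne => ?_, fun P₀ => ?_⟩
    · have h1 := g1 H ((le_max_left _ _).trans hH) x hxA1 hxB h hinj hsx (series_ne h hne)
      rw [hz, hid, series_eq h hinj, inClass_eq] at h1
      refine le_trans (number_le _ _ _ fun v hv h3 => ?_) h1
      push Not at h3
      obtain ⟨y, hy, h4⟩ := h3
      refine ⟨y, hy, ?_⟩
      rw [sum_eq]
      exact h4
    · have h1 := g2 H ((le_max_right _ _).trans hH) x hxA2 hxB h hinj hsx P₀
      rw [hz, singular_eq, inClass_eq] at h1
      refine le_trans (number_le _ _ _ fun v hv h3 => ?_) h1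
      push Not at h3
      obtain ⟨y, hy, h4⟩ := h3
      refine ⟨y, hy, ?_⟩
      rw [sum_eq]
      exact h4
  · have hinj : Function.Injective (![0, 2, 6, 8] : Fin 4 → ℕ) := by decide
    have hi : univ.image (![0, 2, 6, 8] : Fin 4 → ℕ) = {0, 2, 6, 8} := by decide
    rw [← series_eq _ hinj, hi, Pool.Agent.Helper82K9.PW.SSA, E_eq]
  · have hinj : Function.Injective (![0, 4, 6, 10] : Fin 4 → ℕ) := by decide
    have hi : univ.image (![0, 4, 6, 10] : Fin 4 → ℕ) = {0, 4, 6, 10} := by decide
    rw [← series_eq _ hinj, hi, Pool.Agent.Helper82K9.PW.SSB, E_eq]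
  · rw [← E_eq]
    exact Pool.Agent.Helper82K9.PW.EE_pos

end Pool.Agent.Results.MP_092512_nt.TuplesInClasses
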