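import Pool.Agent.Helper32K9.Reg.Quad4

set_option autoImplicit false

/-!
# Frequent gap vectors at typical elements of dense sets of rough quadruples of both shapes

Let `s` be `(0, 2, 6, 8)` or `(0, 4, 6, 10)`, and let `A` be an arbitrary subset of `R s r` (the set of the `n` such
that all prime factors of all `n + s i` are larger than `n ^ (1 / r)`) with at least `c₀ Y / log ^ 4 X` elements in
`(X, X + Y]`. Then at least `κ (log X) ^ (4 l)` vectors `h`, with `h i ≤ W log ^ 4 X`, are the vector of the next `l`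
gaps of `A` after at least `κ Y / (log X) ^ (4 (l + 1))` elements of `A` in `(X, X + Y]` which are typical:
regular points of `A` and centres of the right number of `m`-dimensional patterns all of whose elements are
regular points of `A`.
-/

namespace Pool.Agent.Results.MP_092512_nt.TypicalGapVectors

open Filter
open Pool.Agent.Helper32K9.Typ (Typical NextGaps)
open Pool.Agent.Helper32K9.Tup (R Al)

/-- **Frequent gap vectors at typical elements.** -/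
theorem result (s : Fin 4 → ℕ) (hs : s = ![0, 2, 6, 8] ∨ s = ![0, 4, 6, 10]) (θ : ℝ) (hθ : 0 < θ) (hθ1 : θ ≤ 1) :
    ∃ r₀ : ℕ, 2 ≤ r₀ ∧ ∀ r : ℕ, r₀ ≤ r →
      {n : ℕ | ∀ i, (n + s i).Prime} ⊆ R s r ∧ Al s r ⊆ R s r ∧
      (∃ κ : ℝ, 0 < κ ∧ ∀ᶠ X : ℕ in atTop, ∀ Y : ℕ, (X : ℝ) ^ θ ≤ Y → Y ≤ X →
        κ * Y / Real.log X ^ 4 ≤ ((Al s r ∩ Set.Ioc X (X + Y)).ncard : ℝ)) ∧
      ∀ c₀ : ℝ, 0 < c₀ → ∀ l : ℕ, 1 ≤ l → ∃ W κ : ℝ, 0 < W ∧ 0 < κ ∧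
        ∀ m K : ℕ, 1 ≤ K → ∃ c : ℝ, 0 < c ∧ ∀ δ : ℝ, 0 < δ → ∃ B : ℕ, ∀ᶠ X : ℕ in atTop, ∀ Y D : ℕ,
        (X : ℝ) ^ θ ≤ Y → 2 * Y ≤ X → Real.log X ^ B ≤ D → D ≤ Y → ∀ A : Set ℕ, A ⊆ R s r →
        c₀ * Y / Real.log X ^ 4 ≤ ((A ∩ Set.Ioc X (X + Y)).ncard : ℝ) →
        κ * Real.log X ^ (4 * l) ≤ ({h : Fin l → ℕ | (∀ i, 0 < h i ∧ (h i : ℝ) ≤ W * Real.log X ^ 4) ∧
          κ * Y / Real.log X ^ (4 * (l + 1)) ≤ ({n | n ∈ Typical A 4 c δ B K m X Y D ∧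
            NextGaps A h n}.ncard : ℝ)}.ncard : ℝ) := by
  obtain ⟨r₀, hr₀, h⟩ := Pool.Agent.Helper32K9.Tup.main (by norm_num : 1 ≤ 4) s
    (Pool.Agent.Helper32K9.Tup.shapes_inj s hs) (Pool.Agent.Helper32K9.Tup.shapes_adm s hs) θ hθ hθ1
  refine ⟨r₀, hr₀, fun r hr => ?_⟩
  obtain ⟨h1, -, h2⟩ := h r hr
  refine ⟨fun n hn => ?_, fun n hn => hn.1, h1, fun c₀ hc₀ l hl => ?_⟩
  · have h0 : (n + s 0).Prime := hn 0
    rw [Pool.Agent.Helper32K9.Tup.shapes_zero s hs, add_zero] at h0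
    exact Pool.Agent.Helper32K9.Tup.prime_mem s (hr₀.trans hr) h0.two_le hn
  · obtain ⟨W, κ, hW, hκ, h4⟩ := h2 c₀ hc₀ l hl
    refine ⟨W, κ, hW, hκ, fun m K hK => ?_⟩
    obtain ⟨c, hc, h5⟩ := h4 m K hK
    refine ⟨c, hc, fun δ hδ => ?_⟩
    obtain ⟨B, h6⟩ := h5 δ hδ
    refine ⟨B, ?_⟩
    filter_upwards [h6] with X hX Y D k1 k2 k3 k4 A hA k5
    exact hX Y D k1 k2 k3 k4 A (fun n hn q hq hd => hA hn q hq hd) k5

end Pool.Agent.Results.MP_092512_nt.TypicalGapVectors
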